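import Mathlib
import Pool.Agent.Helper407.PLFinal

set_option autoImplicit false

namespace Pool.Agent.Results.MP_5e55fc_al.FittingHeight

/-- `A` is normal in `B` (in fact normal in the whole group) and `B / A` is nilpotent. -/
def NilpotentFactor {G : Type} [Group G] (A B : Subgroup G) : Prop :=
  ∃ _ : A.Normal, Group.IsNilpotent (↥B ⧸ A.subgroupOf B)

/-- `G` has a series `1 = H 0 ≤ H 1 ≤ ... ≤ H h = G` of normal subgroups with nilpotent factors. -/
def HasNilpotentSeries (G : Type) [Group G] (h : ℕ) : Prop :=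
  ∃ H : ℕ → Subgroup G, H 0 = ⊥ ∧ H h = ⊤ ∧ (∀ i, (H i).Normal) ∧ (∀ i, H i ≤ H (i + 1)) ∧
    ∀ i < h, NilpotentFactor (H i) (H (i + 1))

/-- The Fitting height of a (finite soluble) group: the least `h` for which there is a series of
length `h` of normal subgroups with nilpotent factors. -/
noncomputable def fittingHeight (G : Type) [Group G] : ℕ := sInf {h | HasNilpotentSeries G h}

section Aux
open Pool.Agent.Helper407.PL

variable {G : Type} [Group G]

/-- relative version -/
def NS (h : ℕ) (A B : Subgroup G) : Prop :=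
  ∃ S : ℕ → Subgroup G, S 0 = A ∧ S h = B ∧ (∀ i, (S i).Normal) ∧ (∀ i, S i ≤ S (i + 1)) ∧
    ∀ i < h, NilpotentFactor (S i) (S (i + 1))

lemma NS.refl (A : Subgroup G) (hA : A.Normal) : NS 0 A A :=
  ⟨fun _ => A, rfl, rfl, fun _ => hA, fun _ => le_rfl, fun i hi => absurd hi (by omega)⟩

lemma NS.one {A B : Subgroup G} (hA : A.Normal) (hB : B.Normal) (hAB : A ≤ B)
    (h : NilpotentFactor A B) : NS 1 A B := by
  refine ⟨fun i => if i = 0 then A else B, by simp, by simp, fun i => ?_, fun i => ?_,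
    fun i hi => ?_⟩
  · by_cases h0 : i = 0 <;> simp [h0, hA, hB]
  · by_cases h0 : i = 0 <;> simp [h0, hAB]
  · have : i = 0 := by omega
    subst this; simpa using h

lemma NS.trans {h k : ℕ} {A B C : Subgroup G} (h1 : NS h A B) (h2 : NS k B C) :
    NS (h + k) A C := by
  obtain ⟨S, s0, s1, s2, s3, s4⟩ := h1
  obtain ⟨T, t0, t1, t2, t3, t4⟩ := h2
  refine ⟨fun i => if i ≤ h then S i else T (i - h), by simp [s0], ?_, fun i => ?_, fun i => ?_,
    fun i hi => ?_⟩
  · by_cases hk : k = 0
    · subst hk; simp [s1, ← t1, t0]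
    · have : ¬ (h + k ≤ h) := by omega
      simp [this, t1]
  · dsimp only; split_ifs <;> simp [s2, t2]
  · dsimp only
    by_cases hi : i + 1 ≤ h
    · rw [if_pos hi, if_pos (by omega)]; exact s3 i
    · by_cases hi' : i ≤ h
      · have : i = h := by omega
        subst this
        rw [if_pos le_rfl, if_neg hi, s1, ← t0]
        have := t3 0
        simpa using this
      · rw [if_neg hi, if_neg hi']
        have : i + 1 - h = (i - h) + 1 := by omega
        rw [this]; exact t3 _
  · dsimp only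
    by_cases hi1 : i + 1 ≤ h
    · rw [if_pos hi1, if_pos (by omega)]; exact s4 i (by omega)
    · by_cases hi' : i ≤ h
      · have : i = h := by omega
        subst this
        rw [if_pos le_rfl, if_neg hi1, s1, ← t0]
        have := t4 0 (by omega)
        simpa using this
      · rw [if_neg hi1, if_neg hi']
        have : i + 1 - h = (i - h) + 1 := by omega
        rw [this]; exact t4 _ (by omega)

lemma nilp_of_PF [Finite G] {p : ℕ} [hp : Fact p.Prime] {A B : Subgroup G} (hA : A.Normal)
    (h : PF p A B) : NilpotentFactor A B := by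
  refine ⟨hA, ?_⟩
  have : IsPGroup p (↥B ⧸ A.subgroupOf B) := by
    intro x
    induction x using QuotientGroup.induction_on with
    | H b =>
      obtain ⟨k, hk⟩ := h b b.2
      refine ⟨k, ?_⟩
      rw [← QuotientGroup.mk_pow, QuotientGroup.eq_one_iff, Subgroup.mem_subgroupOf]
      simpa using hk
  exact this.isNilpotent

/-- no primes: equality -/
lemma eq_of_PF' [Finite G] {A B : Subgroup G} (hAB : A ≤ B)
    (h : ∀ q : ℕ, q.Prime → PF' q A B) : A = B := by
  refine le_antisymm hAB fun b hb => ?_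
  have key : ∀ m : ℕ, 0 < m → ∀ b ∈ B, b ^ m ∈ A → b ∈ A := by
    intro m
    induction m using Nat.strong_induction_on with
    | _ m ih =>
      intro hm b hb hbm
      by_cases h1 : m = 1
      · subst h1; simpa using hbm
      · obtain ⟨q, hq, hqm⟩ := Nat.exists_prime_and_dvd h1
        obtain ⟨c, rfl⟩ := hqm
        have hc : 0 < c := Nat.pos_of_mul_pos_left hm |> fun h => by
          rcases Nat.eq_zero_or_pos c with h0 | h0
          · subst h0; simp at hm
          · exact h0
        obtain ⟨m', hm', hb'⟩ := h q hq (b ^ c) (B.pow_mem hb c)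
        have h2 : (b ^ c) ^ q ∈ A := by rw [← pow_mul, mul_comm]; exact hbm
        have h3 : b ^ c ∈ A := by
          have e := Nat.gcd_eq_gcd_ab m' q
          have hg : Nat.gcd m' q = 1 := hm'
          have h4 : (b ^ c) ^ (1 : ℤ) = ((b ^ c) ^ m') ^ (Nat.gcdA m' q) *
              ((b ^ c) ^ q) ^ (Nat.gcdB m' q) := by
            rw [← zpow_natCast (b ^ c) m', ← zpow_natCast (b ^ c) q, ← zpow_mul, ← zpow_mul,
              ← zpow_add, ← e, hg]; simp
          rw [← zpow_one (b ^ c), h4]
          exact A.mul_mem (A.zpow_mem hb' _) (A.zpow_mem h2 _)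
        exact ih c (by
          have := hq.two_le
          nlinarith) hc b hb h3
  exact key (orderOf b) (orderOf_pos b) b hb (by rw [pow_orderOf_eq_one]; exact A.one_mem)

/-- the recursive bound -/
def hb (L : ℕ) : ℕ → ℕ
  | 0 => 0
  | k + 1 => L * (hb L k + 1) + hb L k

lemma NS.chain {h L : ℕ} {X : ℕ → Subgroup G} (hN : ∀ i, (X i).Normal)
    (h1 : ∀ i ≤ L, NS h (X (2 * i)) (X (2 * i + 1)))
    (h2 : ∀ i < L, NS 1 (X (2 * i + 1)) (X (2 * i + 2))) :
    ∀ j ≤ L, NS (j * (h + 1) + h) (X 0) (X (2 * j + 1)) := by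
  intro j
  induction j with
  | zero => intro _; simpa using h1 0 (Nat.zero_le _)
  | succ j ih =>
    intro hj
    have a := ih (by omega)
    have b := h2 j (by omega)
    have c := h1 (j + 1) hj
    have d := (a.trans b).trans c
    have e : j * (h + 1) + h + 1 + h = (j + 1) * (h + 1) + h := by ring
    rw [e] at d
    exact d

lemma main_aux [Finite G] (L : ℕ) (P : Finset ℕ) (hP : ∀ p ∈ P, p.Prime)
    (hL : ∀ p ∈ P, RLp p L (⊥ : Subgroup G) ⊤) :
    ∀ A B : Subgroup G, A.Normal → B.Normal → A ≤ B →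
      (∀ q : ℕ, q.Prime → q ∉ P → PF' q A B) → NS (hb L P.card) A B := by
  induction P using Finset.induction_on with
  | empty =>
    intro A B hA hB hAB h
    have : A = B := eq_of_PF' hAB (fun q hq => h q hq (by simp))
    subst this
    simpa [hb] using NS.refl A hA
  | insert p P hpP ih =>
    intro A B hA hB hAB h
    have hp : Fact p.Prime := ⟨hP p (Finset.mem_insert_self _ _)⟩
    have ih' := ih (fun q hq => hP q (Finset.mem_insert_of_mem hq))
      (fun q hq => hL q (Finset.mem_insert_of_mem hq))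
    obtain ⟨S, s0, s1, s2, s3, s4, s5⟩ := hL p (Finset.mem_insert_self _ _)
    have hSn : ∀ i, (S i).Normal := fun i => (s2 i).normal
    let X : ℕ → Subgroup G := fun i => A ⊔ (B ⊓ S i)
    have hXn : ∀ i, (X i).Normal := fun i => by
      have := hSn i
      infer_instance
    have hX0 : X 0 = A := by simp [X, s0]
    have hX1 : X (2 * L + 1) = B := by
      simp only [X, s1, inf_top_eq]; exact sup_eq_right.2 hAB
    have hXm : ∀ i, X i ≤ X (i + 1) := fun i => sup_le_sup_left (inf_le_inf_left _ (s3 i)) _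
    have hAX : ∀ i, A ≤ X i := fun i => le_sup_left
    have hXB : ∀ i, X i ≤ B := fun i => sup_le hAB inf_le_left
    have hinvA : Inv ⊤ A := Inv.of_normal _ _
    rw [Finset.card_insert_of_notMem hpP]
    have hfin := NS.chain (h := hb L P.card) (L := L) hXn (fun i hi => ?_) (fun i hi => ?_) L le_rfl
    · rw [hX0, hX1] at hfin
      exact hfin
    · apply ih' _ _ (hXn _) (hXn _) (hXm _)
      intro q hq hqP
      by_cases hqp : q = p
      · subst hqp
        have := ((PF'.refl (p := q) B).inf (s4 i hi)).sup (N := ⊤) le_top hinvA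
        simp only [X]
        rw [sup_comm A, sup_comm A]
        exact this
      · exact (h q hq (by simp [hqp, hqP])).mono (hAX _) (hXB _)
    · refine NS.one (hXn _) (hXn _) (hXm _) (nilp_of_PF (p := p) (hXn _) ?_)
      have := ((PF.refl (p := p) B).inf (s5 i hi)).sup (N := ⊤) le_top hinvA
      simp only [X]
      rw [sup_comm A, sup_comm A]
      exact this

/-- the commutator subgroup has no `q`-elements for `q` not dividing `n` -/
lemma comm_PF' [Finite G] {n : ℕ} (h : ∀ x y : G, (x⁻¹ * y⁻¹ * x * y) ^ n = 1)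
    {q : ℕ} (hq : q.Prime) (hqn : ¬ q ∣ n) : PF' q (⊥ : Subgroup G) (commutator G) := by
  have hqf : Fact q.Prime := ⟨hq⟩
  obtain ⟨P⟩ : Nonempty (Sylow q G) := inferInstance
  have hcop : ∀ z ∈ P, z ^ n = 1 → z = 1 := by
    intro z hz hzn
    obtain ⟨k, hk⟩ := P.2 ⟨z, hz⟩
    have hk' : z ^ (q ^ k) = 1 := by
      have := congrArg Subtype.val hk
      simpa using this
    have h1 : orderOf z ∣ n := orderOf_dvd_of_pow_eq_one hzn
    have h2 : orderOf z ∣ q ^ k := orderOf_dvd_of_pow_eq_one hk'
    have h3 : Nat.Coprime (q ^ k) n := Nat.Coprime.pow_left _ ((Nat.Prime.coprime_iff_not_dvd hq).2 hqn)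
    have h4 : orderOf z = 1 := Nat.eq_one_of_dvd_coprimes h3 h2 h1
    exact orderOf_eq_one_iff.1 h4
  have hP : Subgroup.normalizer (P : Set G) ≤ Subgroup.centralizer (P : Set G) := by
    intro g hg
    rw [Subgroup.mem_centralizer_iff]
    intro x hx
    have hg' := (Subgroup.mem_normalizer_iff'' (H := (P : Subgroup G))).1 hg
    have h1 : x⁻¹ * (g⁻¹ * x * g) ∈ P :=
      (P : Subgroup G).mul_mem ((P : Subgroup G).inv_mem hx) ((hg' x).1 hx)
    have h2 := hcop _ h1 (by have := h x g; simpa [mul_assoc] using this)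
    have h3 : x = g⁻¹ * x * g := by
      have := congrArg (fun z => x * z) h2
      simpa using this.symm
    have h4 : g * x = x * g := by
      have := congrArg (fun z => g * z) h3
      simpa [mul_assoc] using this
    exact h4.symm
  have hPc : ∀ a b : P, a * b = b * a := by
    intro a b
    have h1 := hP (Subgroup.le_normalizer a.2)
    rw [Subgroup.mem_centralizer_iff] at h1
    exact Subtype.ext (h1 b b.2).symm
  have hker : commutator G ≤ (MonoidHom.transferSylow P hP).ker := by
    rw [commutator_def, Subgroup.commutator_le]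
    intro a _ b _
    rw [MonoidHom.mem_ker, map_commutatorElement, commutatorElement_def, hPc ((MonoidHom.transferSylow P hP) a)]
    simp
  intro b hb
  refine ⟨Nat.card (MonoidHom.transferSylow P hP).ker, ?_, ?_⟩
  · exact ((Nat.Prime.coprime_iff_not_dvd hq).2 (MonoidHom.not_dvd_card_ker_transferSylow P hP)).symm
  · rw [Subgroup.mem_bot]
    have h1 : (⟨b, hker hb⟩ : (MonoidHom.transferSylow P hP).ker) ^
        Nat.card (MonoidHom.transferSylow P hP).ker = 1 := pow_card_eq_one'
    have := congrArg Subtype.val h1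
    simpa using this

/-- the law -/
noncomputable def law (n : ℕ) : FreeGroup ℕ :=
  ((FreeGroup.of 0)⁻¹ * (FreeGroup.of 1)⁻¹ * FreeGroup.of 0 * FreeGroup.of 1) ^ n

lemma law_ne_one {n : ℕ} (hn : 0 < n) : law n ≠ 1 := by
  intro h
  have h1 : ((FreeGroup.of 0)⁻¹ * (FreeGroup.of 1)⁻¹ * FreeGroup.of 0 * FreeGroup.of 1 :
      FreeGroup ℕ) = 1 := by
    have h2 : ((FreeGroup.of 0)⁻¹ * (FreeGroup.of 1)⁻¹ * FreeGroup.of 0 * FreeGroup.of 1 :
      FreeGroup ℕ) ^ n = 1 ^ n := by rw [one_pow]; exact h
    exact pow_left_injective (M := FreeGroup ℕ) hn.ne' h2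
  let f : FreeGroup ℕ →* Equiv.Perm (Fin 3) :=
    FreeGroup.lift (fun i => if i = 0 then Equiv.swap 0 1 else Equiv.swap 1 2)
  have h3 := congrArg f h1
  simp only [map_mul, map_inv, map_one, f, FreeGroup.lift_apply_of] at h3
  revert h3
  decide

/-- the commutator step in the derived series has `p`-length at most one -/
lemma step_RLp [Finite G] {p : ℕ} [hp : Fact p.Prime] (D : Subgroup G) (hD : D.Normal) :
    RLp p 1 ⁅D, D⁆ D := by
  have hE : (⁅D, D⁆ : Subgroup G).Normal := inferInstance
  have hED : ⁅D, D⁆ ≤ D := Subgroup.commutator_le_right D D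
  have hcomm : ∀ x ∈ D, ∀ y ∈ D, ∀ m : ℕ, x ^ m ∈ ⁅D, D⁆ → y ^ m ∈ ⁅D, D⁆ →
      (x * y) ^ m ∈ ⁅D, D⁆ := by
    intro x hx y hy m h1 h2
    let q : D →* D ⧸ (⁅D, D⁆ : Subgroup G).subgroupOf D := QuotientGroup.mk' _
    have hq : ∀ a b : D, q a * q b = q b * q a := by
      intro a b
      rw [← map_mul, ← map_mul]
      refine QuotientGroup.eq.2 ?_
      rw [Subgroup.mem_subgroupOf]
      have := Subgroup.commutator_mem_commutator (D.inv_mem b.2) (D.inv_mem a.2)
      simpa [commutatorElement_def, mul_assoc] using this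
    have h3 : q (⟨x, hx⟩ ^ m) = 1 := (QuotientGroup.eq_one_iff _).2 (by
      rw [Subgroup.mem_subgroupOf]; simpa using h1)
    have h4 : q (⟨y, hy⟩ ^ m) = 1 := (QuotientGroup.eq_one_iff _).2 (by
      rw [Subgroup.mem_subgroupOf]; simpa using h2)
    have h5 : q ((⟨x, hx⟩ * ⟨y, hy⟩) ^ m) = 1 := by
      have hc : Commute (q ⟨x, hx⟩) (q ⟨y, hy⟩) := hq _ _
      rw [map_pow, map_mul, hc.mul_pow, ← map_pow, ← map_pow, h3, h4, one_mul]
    have h6 := (QuotientGroup.eq_one_iff _).1 h5
    rw [Subgroup.mem_subgroupOf] at h6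
    simpa using h6
  let T : Subgroup G :=
    { carrier := {x | x ∈ D ∧ ∃ m : ℕ, m.Coprime p ∧ x ^ m ∈ ⁅D, D⁆}
      one_mem' := ⟨D.one_mem, 1, Nat.coprime_one_left p, by simp⟩
      mul_mem' := by
        rintro x y ⟨hx, m, hm, hxm⟩ ⟨hy, l, hl, hyl⟩
        refine ⟨D.mul_mem hx hy, m * l, Nat.Coprime.mul_left hm hl, ?_⟩
        apply hcomm x hx y hy
        · rw [pow_mul]; exact Subgroup.pow_mem _ hxm _
        · rw [mul_comm, pow_mul]; exact Subgroup.pow_mem _ hyl _
      inv_mem' := by
        rintro x ⟨hx, m, hm, hxm⟩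
        exact ⟨D.inv_mem hx, m, hm, by rw [inv_pow]; exact Subgroup.inv_mem _ hxm⟩ }
  have hTD : T ≤ D := fun x hx => hx.1
  have hET : ⁅D, D⁆ ≤ T := fun x hx => ⟨hED hx, 1, Nat.coprime_one_left p, by simpa using hx⟩
  have hTinv : Inv D T := by
    rintro g hg x ⟨hx, m, hm, hxm⟩
    refine ⟨D.mul_mem (D.mul_mem hg hx) (D.inv_mem hg), m, hm, ?_⟩
    rw [conj_pow]
    exact hE.conj_mem _ hxm g
  have h1 : RLp p 0 ⁅D, D⁆ T :=
    RLp.of_PF' 0 (fun x hx => hx.2) hET (fun g _ x hx => hE.conj_mem x hx g)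
  have h2 : RLp p 1 T D := by
    refine RLp.of_PF (fun x hx => ?_) hTD hTinv
    obtain ⟨k, m, hpm, hcard⟩ := Nat.exists_eq_pow_mul_and_not_dvd (n := Nat.card G) Nat.card_pos.ne' p
      hp.out.ne_one
    refine ⟨k, D.pow_mem hx _, m, ((Nat.Prime.coprime_iff_not_dvd hp.out).2 hpm).symm, ?_⟩
    rw [← pow_mul, ← hcard, pow_card_eq_one']
    exact Subgroup.one_mem _
  have := h1.trans h2 (fun g _ x hx => hE.conj_mem x hx g)
  simpa using this

lemma solv_RLp [Finite G] {p : ℕ} [hp : Fact p.Prime] (hG : IsSolvable G) :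
    ∃ m, RLp p m (⊥ : Subgroup G) ⊤ := by
  obtain ⟨n, hn⟩ := hG.solvable
  have key : ∀ i, RLp p i (derivedSeries G i) ⊤ := by
    intro i
    induction i with
    | zero => exact RLp.refl 0 ⊤
    | succ i ih =>
      have h1 := step_RLp (p := p) (derivedSeries G i) inferInstance
      have h2 := h1.trans ih (Inv.of_normal ⊤ ⁅derivedSeries G i, derivedSeries G i⁆)
      rw [derivedSeries_succ, add_comm]
      exact h2
  exact ⟨n, hn ▸ key n⟩

end Aux

open Pool.Agent.Helper407.PL in
/-- **Theorem.** For every `n ≥ 1` there is a bound `h = h(n)` such that every finite soluble group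
satisfying the identity `[x,y]^n = 1` has Fitting height at most `h(n)`. -/
theorem result : ∀ n : ℕ, 0 < n → ∃ h : ℕ, ∀ (G : Type) [Group G] [Finite G],
    Group.IsSolvable G → (∀ x y : G, (x⁻¹ * y⁻¹ * x * y) ^ n = 1) →
      HasNilpotentSeries G (fittingHeight G) ∧ fittingHeight G ≤ h := by
  intro n hn
  classical
  have hex : ∀ p : ℕ, ∃ l : ℕ, p.Prime → ∀ (G : Type) [Group G] [Finite G],
      Group.IsSolvable G → (∀ x y : G, (x⁻¹ * y⁻¹ * x * y) ^ n = 1) →
        RLp p l (⊥ : Subgroup G) ⊤ := by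
    intro p
    by_cases hp : p.Prime
    · have hpf : Fact p.Prime := ⟨hp⟩
      obtain ⟨l, hl⟩ := main_bound (p := p) (law n) (law_ne_one hn)
      refine ⟨l, fun _ G _ _ hG hlaw => hl G (fun f _ => ?_) (solv_RLp hG)⟩
      simp only [law, map_pow, map_mul, map_inv]
      exact hlaw _ _
    · exact ⟨0, fun h => absurd h hp⟩
  choose l hl using hex
  set L := ∑ p ∈ n.primeFactors, l p with hL
  refine ⟨hb L n.primeFactors.card + 1, fun G _ _ hG hlaw => ?_⟩
  have h1 : NS (hb L n.primeFactors.card) (⊥ : Subgroup G) (commutator G) := by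
    refine main_aux L n.primeFactors (fun p hp => Nat.prime_of_mem_primeFactors hp)
      (fun p hp => ?_) ⊥ (commutator G) inferInstance inferInstance bot_le (fun q hq hqn => ?_)
    · exact (hl p (Nat.prime_of_mem_primeFactors hp) G hG hlaw).mono_n
        (Finset.single_le_sum (f := l) (fun _ _ => Nat.zero_le _) hp)
    · exact comm_PF' hlaw hq (fun hd => hqn (Nat.mem_primeFactors.2 ⟨hq, hd, hn.ne'⟩))
  have h2 : NS 1 (commutator G) (⊤ : Subgroup G) := by
    refine NS.one inferInstance inferInstance le_top ⟨inferInstance, ?_⟩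
    have hc : ∀ a b : (↥(⊤ : Subgroup G) ⧸ (commutator G).subgroupOf ⊤), a * b = b * a := by
      intro a b
      induction a using QuotientGroup.induction_on with
      | H a =>
        induction b using QuotientGroup.induction_on with
        | H b =>
          rw [← QuotientGroup.mk_mul, ← QuotientGroup.mk_mul]
          refine QuotientGroup.eq.2 ?_
          rw [Subgroup.mem_subgroupOf]
          have := Subgroup.commutator_mem_commutator (H₁ := (⊤ : Subgroup G)) (H₂ := (⊤ : Subgroup G))
            (Subgroup.inv_mem _ b.2) (Subgroup.inv_mem _ a.2)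
          rw [commutator_def]
          simpa [commutatorElement_def, mul_assoc] using this
    letI : CommGroup (↥(⊤ : Subgroup G) ⧸ (commutator G).subgroupOf ⊤) := { mul_comm := hc }
    exact CommGroup.isNilpotent
  have h3 : HasNilpotentSeries G (hb L n.primeFactors.card + 1) := h1.trans h2
  exact ⟨Nat.sInf_mem (s := {h | HasNilpotentSeries G h}) ⟨_, h3⟩, Nat.sInf_le h3⟩

end Pool.Agent.Results.MP_5e55fc_al.FittingHeight
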